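import Pool.Agent.KS6_83.TC.Nil

/-!
# Equivariant zero divisors of infinite nilpotency, while all fixed sets have `TC ≤ 1`

Let `G` be a discrete group with a homomorphism `φ : G → {1, -1}` which has a right inverse `ι`
(for instance `{1, -1}`, all symmetric and all dihedral groups). `G` acts through `φ` on the circle
by complex conjugation and on a space `F` with a free involution; `X = S¹ × F`.  The fixed sets of
subgroups are `X` and the empty set.

* For the contractible space `F = ℝ^ℕ ∖ {0}` the largest topological complexity of a fixed set is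
  `1`, while the ideal `ker (Δ^* : H_G^*(X × X) → H_G^*(X))` (Borel cohomology with coefficients
  in `𝔽₂`) has infinite nilpotency.
* For `F = S^{2m-1}` all fixed sets have topological complexity at most `2`, and the nilpotency is
  at least `2m - 1`; so `S¹ × S³` is a closed manifold of dimension four with `nil > max TC`.

The zero divisor `y` is the class of degree one of the equivariant double cover `w² = z z̄'` of
`X × X ∋ ((z, x), (z', x'))`; the powers of `y` are evaluated on the orbits of the cross-polytopes
in `{((1, x), (-1, x))} ≅ F` (as in the library, where `G = {1, -1}` and `F = S^{2m-1}`).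
-/

set_option autoImplicit false

namespace Pool.Agent.Results.MP_26f563_gt.InfiniteNilpotency

open Pool.Agent.Q171.ETC Pool.Agent.KS6_83.TC

/-- `Via φ X` is the space `X` with the action `g • x = φ g • x` of `G`, `EInf` is `ℝ^ℕ ∖ {0}`,
`maxTC G X` is the supremum of `TC(X^K)` over the subgroups `K` of `G`, and `nilC G X` is the
nilpotency of the kernel of `Δ^* : H_G^*(X × X) → H_G^*(X)`. -/
theorem result (G : Type) [Group G] (φ : G →* ℤˣ) (ι : ℤˣ →* G) (hι : ∀ u, φ (ι u) = u) :
    (maxTC G (Via φ (Circ × EInf)) = 1 ∧ nilC G (Via φ (Circ × EInf)) = ⊤) ∧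
    ∀ m : ℕ, 1 ≤ m →
      maxTC G (Via φ (Circ × Sph m)) ≤ 2 ∧
      ((2 * m - 1 : ℕ) : ℕ∞) ≤ nilC G (Via φ (Circ × Sph m)) ∧
      (2 ≤ m → maxTC G (Via φ (Circ × Sph m)) < nilC G (Via φ (Circ × Sph m))) := by
  refine ⟨⟨maxTC_inf φ, nilC_inf φ ι hι⟩,
    fun m hm => ⟨maxTC_sph φ m, nilC_sph φ ι hι hm, fun h2 => ?_⟩⟩
  refine (maxTC_sph φ m).trans_lt (lt_of_lt_of_le ?_ (nilC_sph φ ι hι hm))
  exact_mod_cast (show 2 < 2 * m - 1 by omega)

end Pool.Agent.Results.MP_26f563_gt.InfiniteNilpotency
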